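import Pool.Agent.Lib.MP_551055_al.LO.Nil
import Pool.Agent.Lib.MP_551055_al.PT.TreeCoh2
import Pool.Agent.Lib.MP_551055_al.PT.SatMV

/-!
# Groups which act on trees with regular coherent edge stabilisers

If the kernels over the group rings of the vertex stabilisers are locally perfect, and the group
rings of the edge stabilisers are regular coherent, then the kernels over the group ring are
locally perfect.
-/

set_option autoImplicit false

namespace Pool.Agent.Lib.MP_551055_al.LO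

open Pool.Agent.Lib.MP_551055_al
open Pool.Agent.Lib.MP_551055_al.LS
open Pool.Agent.Lib.MP_551055_al.PT
open Pool.Agent.Lib.MP_551055_al.Red (Vec)

universe u v

section

variable {Γ : Type u} [Group Γ] {V : Type v} [MulAction Γ V] {T : SimpleGraph V} {ι κ : Type}

/-- The saturated families of a submodule, with a finite subset at one vertex. -/
theorem sat_mv (hH : StHull.{v}) (hT : TreeAct Γ V T) {O : Set (V × V)} (hO : Ori Γ T O)
    [Finite ι] (K : Submodule (ZG Γ) (F Γ ι)) (S : Set (F Γ ι)) (hS : S.Finite)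
    (hSK : S ⊆ K) :
    ∃ (o : V) (A : Set V) (n m : ℕ) (c : Fin n → V) (b : Fin m → V × V),
      Set.range c = A ∧ Set.range b = SE T O A ∧
      MV T O (sat K A) (sat K (SE T O A)) c b ∧ ∀ f ∈ S, f ∈ sat K A o := by
  classical
  have hne : Nonempty V := hT.tree.connected.nonempty
  obtain ⟨o⟩ := hne
  have hB : (⋃ k ∈ S, ⋃ j : ι, ((fun γ : Γ => γ⁻¹ • o) '' {γ : Γ | (k j).coeff γ ≠ 0})).Finite := by
    refine Set.Finite.biUnion hS fun k _ => Set.finite_iUnion fun j => ?_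
    refine Set.Finite.image _ ?_
    exact (k j).coeff.hasFiniteSupport
  obtain ⟨A, hAfin, hBA, hEC⟩ := hH V T hT.tree _ hB
  have hSE : (SE T O A).Finite := by
    refine (hAfin.prod hAfin).subset ?_
    rintro ⟨x, y⟩ h
    exact ⟨h.2.2.1, h.2.2.2⟩
  obtain ⟨n, c, hc, hcr⟩ := hAfin.fin_param
  obtain ⟨m, b, hb, hbr⟩ := hSE.fin_param
  refine ⟨o, A, n, m, c, b, hcr, hbr, ?_, fun k hk => ⟨hSK hk, fun j γ hne => hBA ?_⟩⟩
  · refine ⟨sat_eqv K A, sat_eqv K _, ?_, ?_, hc, hb, ?_, ?_, ?_⟩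
    · intro x f hf j γ hne
      rw [hcr]
      exact hf.2 j γ hne
    · intro x f hf j γ hne
      rw [hbr]
      exact hf.2 j γ hne
    · intro k
      have h1 : b k ∈ SE T O A := by
        rw [← hbr]
        exact ⟨k, rfl⟩
      exact ⟨h1.1, h1.2.1⟩
    · intro e _ _ f hf
      refine ⟨⟨hf.1, fun j γ hne => ?_⟩, ⟨hf.1, fun j γ hne => ?_⟩⟩
      · exact (hf.2 j γ hne).2.2.1
      · exact (hf.2 j γ hne).2.2.2
    · intro e heO hadj f
      refine ⟨fun h1 h2 => ⟨h1.1, fun j γ hne => ?_⟩, fun h1 h2 => ⟨h1.1, fun j γ hne => ?_⟩⟩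
      · have h3 := SatAux.cut_aux hT hEC K hadj h1 h2 j γ hne
        exact ⟨hO.inv γ⁻¹ e heO, hT.adj γ⁻¹ _ _ hadj, h3.1, h3.2⟩
      · have h3 := SatAux.cut_aux hT hEC K hadj.symm h1 h2 j γ hne
        exact ⟨hO.inv γ⁻¹ e heO, hT.adj γ⁻¹ _ _ hadj, h3.2, h3.1⟩
  · exact Set.mem_biUnion hk (Set.mem_iUnion.2 ⟨j, ⟨γ, hne, rfl⟩⟩)

end

section Parts

variable {Γ : Type u} [Group Γ] {C : Type v} [MulAction Γ C] {ι κ : Type} {n : ℕ}

/-- The homogeneous sections of the saturated family of a kernel. -/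
theorem mem_part {c : Fin n → C} {A : Set C} (hA : Set.range c = A) (f : F Γ ι →ₗ[ZG Γ] F Γ κ)
    {x : C} {y : F Γ (ι × Fin n)} (hy : In (cp ι c) {x} y) :
    y ∈ sec c (sat (LinearMap.ker f) A) (sat_eqv _ _) ↔ f (eps Γ ι n y) = 0 := by
  rw [mem_sec_of_in hy, mem_sat, LinearMap.mem_ker]
  refine ⟨fun h => h.1, fun h => ⟨h, fun j γ hne => ?_⟩⟩
  rw [← hA]
  exact eps_coeff_ne hy hne

/-- The map which defines the part at `x`. -/
noncomputable def partMap (c : Fin n → C) (f : F Γ ι →ₗ[ZG Γ] F Γ κ) (x : C) :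
    homIn (⊤ : Submodule (ZG Γ) (F Γ (ι × Fin n))) (cp ι c) x
      →ₗ[MonoidAlgebra ℤ (MulAction.stabilizer Γ x)] Vec (MulAction.stabilizer Γ x) κ :=
  vecMap (MulAction.stabilizer Γ x) (f ∘ₗ eps Γ ι n) ∘ₗ
    (homIn (⊤ : Submodule (ZG Γ) (F Γ (ι × Fin n))) (cp ι c) x).subtype

theorem partMap_eq_zero {c : Fin n → C} {A : Set C} (hA : Set.range c = A)
    (f : F Γ ι →ₗ[ZG Γ] F Γ κ) (x : C)
    (y : homIn (⊤ : Submodule (ZG Γ) (F Γ (ι × Fin n))) (cp ι c) x) :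
    partMap c f x y = 0 ↔ (y : Vec (MulAction.stabilizer Γ x) (ι × Fin n)) ∈
      homIn (sec c (sat (LinearMap.ker f) A) (sat_eqv _ _)) (cp ι c) x := by
  constructor
  · intro h
    exact ⟨y.2.1, (mem_part hA f (y := asF y.1) y.2.1).2 h⟩
  · intro h
    exact (mem_part hA f (y := asF y.1) y.2.1).1 h.2

theorem homIn_le_top (p : ι → C) (B : Submodule (ZG Γ) (F Γ ι)) (x : C) :
    homIn B p x ≤ homIn (⊤ : Submodule (ZG Γ) (F Γ ι)) p x := fun _ hy => ⟨hy.1, trivial⟩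

theorem lp_part (hFree : StHomFree.{u, v}) (hVec : StVecFree.{u}) [Finite ι] [Finite κ]
    {c : Fin n → C} {A : Set C} (hA : Set.range c = A) (f : F Γ ι →ₗ[ZG Γ] F Γ κ) (x : C)
    (hx : LPK (MonoidAlgebra ℤ (MulAction.stabilizer Γ x))) :
    LP (homIn (sec c (sat (LinearMap.ker f) A) (sat_eqv _ _)) (cp ι c) x) := by
  have hfree := hVec Γ (MulAction.stabilizer Γ x) κ
  obtain ⟨k, ⟨e⟩⟩ := hFree Γ C (ι × Fin n) (cp ι c) x
  exact lp_sub hx (homIn (⊤ : Submodule (ZG Γ) (F Γ (ι × Fin n))) (cp ι c) x) _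
    ⟨0, Module.Finite.equiv e.symm, Module.Projective.of_equiv e.symm⟩ (partMap c f x)
    (partMap_eq_zero hA f x) (homIn_le_top _ _ x)

theorem ffr_part (hFree : StHomFree.{u, v}) (hVec : StVecFree.{u}) [Finite ι] [Finite κ]
    {c : Fin n → C} {A : Set C} (hA : Set.range c = A) (f : F Γ ι →ₗ[ZG Γ] F Γ κ) (x : C)
    (hx : RegCoh (MonoidAlgebra ℤ (MulAction.stabilizer Γ x))) :
    ∃ d, FFR (MonoidAlgebra ℤ (MulAction.stabilizer Γ x)) d
      (homIn (sec c (sat (LinearMap.ker f) A) (sat_eqv _ _)) (cp ι c) x) := by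
  have hfree := hVec Γ (MulAction.stabilizer Γ x) κ
  have hfree2 := hVec Γ (MulAction.stabilizer Γ x) (ι × Fin n)
  obtain ⟨k, ⟨e⟩⟩ := hFree Γ C (ι × Fin n) (cp ι c) x
  have h1 : Module.Finite (MonoidAlgebra ℤ (MulAction.stabilizer Γ x))
      (homIn (⊤ : Submodule (ZG Γ) (F Γ (ι × Fin n))) (cp ι c) x) := Module.Finite.equiv e.symm
  have h2 : (LinearMap.ker (partMap c f x)).FG := fg_ker_of_free hx (partMap c f x)
  have h3 : (LinearMap.ker (partMap c f x)).map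
      (homIn (⊤ : Submodule (ZG Γ) (F Γ (ι × Fin n))) (cp ι c) x).subtype =
      homIn (sec c (sat (LinearMap.ker f) A) (sat_eqv _ _)) (cp ι c) x := by
    ext y
    constructor
    · rintro ⟨z, hz, rfl⟩
      exact (partMap_eq_zero hA f x z).1 hz
    · intro hy
      exact ⟨⟨y, homIn_le_top _ _ x hy⟩, (partMap_eq_zero hA f x _).2 hy, rfl⟩
  refine exists_ffr_of_free hx _ ?_
  rw [← h3]
  exact h2.map _

end Parts

/-- Module TreeL. -/
def StTreeL : Prop :=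
  ∀ (Γ : Type u) [Group Γ] (V : Type v) [MulAction Γ V] (T : SimpleGraph V), TreeAct Γ V T →
    (∀ v : V, LPK (MonoidAlgebra ℤ (MulAction.stabilizer Γ v))) →
    (∀ u v : V, T.Adj u v → RegCoh (MonoidAlgebra ℤ (MulAction.stabilizer Γ (u, v)))) →
    LPK (ZG Γ)

section Main

variable {Γ : Type u} [Group Γ] {V : Type v} [MulAction Γ V] {T : SimpleGraph V} {ι : Type}

/-- The groups at the edges are contained in the groups at their ends. -/
theorem pe_le {O : Set (V × V)} (hO : Ori Γ T O) (hT : TreeAct Γ V T)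
    {Pv : V → AddSubgroup (F Γ ι)} {Pe : V × V → AddSubgroup (F Γ ι)} {n m : ℕ}
    {c : Fin n → V} {b : Fin m → V × V} (hmv : MV T O Pv Pe c b) (e : V × V) (x : F Γ ι)
    (hx : x ∈ Pe e) : x ∈ Pv e.1 ∧ x ∈ Pv e.2 := by
  by_cases hx0 : ∃ (j : ι) (γ : Γ), (x j).coeff γ ≠ 0
  · obtain ⟨j, γ, hne⟩ := hx0
    obtain ⟨k, hk⟩ := hmv.cove e x hx j γ hne
    have hγ : γ • b k = e := by rw [hk, smul_inv_smul]
    have h1 : e ∈ O := by
      rw [← hγ]
      exact hO.inv γ _ (hmv.bO k).1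
    have h2 : T.Adj e.1 e.2 := by
      rw [← hγ]
      exact hT.adj γ _ _ (hmv.bO k).2
    exact hmv.sub e h1 h2 hx
  · have h1 : x = 0 := by
      refine F_ext fun j γ => ?_
      by_contra h2
      exact hx0 ⟨j, γ, h2⟩
    rw [h1]
    exact ⟨AddSubgroup.zero_mem _, AddSubgroup.zero_mem _⟩

/-- The subfamily given by a graded submodule. -/
noncomputable def cutP {C : Type v} [MulAction Γ C] {n : ℕ} (c : Fin n → C)
    (P : C → AddSubgroup (F Γ ι)) (B : Submodule (ZG Γ) (F Γ (ι × Fin n))) (x : C) :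
    AddSubgroup (F Γ ι) :=
  P x ⊓ B.toAddSubgroup.comap (unf c x)

theorem mem_cutP {C : Type v} [MulAction Γ C] {n : ℕ} {c : Fin n → C}
    {P : C → AddSubgroup (F Γ ι)} {B : Submodule (ZG Γ) (F Γ (ι × Fin n))} {x : C}
    {f : F Γ ι} : f ∈ cutP c P B x ↔ f ∈ P x ∧ unf c x f ∈ B := Iff.rfl

theorem cutP_eqv {C : Type v} [MulAction Γ C] {n : ℕ} (c : Fin n → C)
    {P : C → AddSubgroup (F Γ ι)} (hP : Eqv P) (B : Submodule (ZG Γ) (F Γ (ι × Fin n))) :
    Eqv (cutP c P B) := by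
  rintro γ x f ⟨h1, h2⟩
  refine ⟨hP γ x f h1, ?_⟩
  change unf c (γ • x) ((MonoidAlgebra.single γ (1 : ℤ) : ZG Γ) • f) ∈ B
  rw [unf_smul]
  exact B.smul_mem _ h2

/-- Every graded submodule of the sections is the module of sections of the subfamily. -/
theorem sec_cutP {C : Type v} [MulAction Γ C] [Finite ι] {n : ℕ} {c : Fin n → C}
    (hc : Function.Injective c) {P : C → AddSubgroup (F Γ ι)} (hP : Eqv P)
    {B : Submodule (ZG Γ) (F Γ (ι × Fin n))} (hB : ∀ Q, ∀ y ∈ B, pr (cp ι c) Q y ∈ B)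
    (hle : B ≤ sec c P hP) : sec c (cutP c P B) (cutP_eqv c hP B) = B := by
  ext y
  constructor
  · intro hy
    obtain ⟨s, hs, hs'⟩ := exists_sum_pr (cp ι c) y
    rw [hs']
    refine Submodule.sum_mem _ fun x _ => ?_
    have h1 := (hy x).2
    have h2 : unf c x (eps Γ ι n (pr (cp ι c) {x} y)) ∈ B := h1
    rwa [unf_eps hc (in_pr (cp ι c) {x} y)] at h2
  · intro hy x
    refine ⟨hle hy x, ?_⟩
    change unf c x (eps Γ ι n (pr (cp ι c) {x} y)) ∈ B
    rw [unf_eps hc (in_pr (cp ι c) {x} y)]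
    exact hB {x} y hy

end Main

/-- Module TreeL. -/
theorem stTreeL (hTreeC : StTreeC.{u, v}) (hH : StHull.{v}) (hMV : StMV.{u, v})
    (hInd : StInd.{u, v}) (hFree : StHomFree.{u, v}) (hVec : StVecFree.{u})
    (hSes : StPSes.{u}) : StTreeL.{u, v} := by
  classical
  intro Γ _ V _ T hT hv he r s f S hS hSK
  obtain ⟨_, O, hO1, hO2⟩ := hTreeC Γ V T hT
  have hO : Ori Γ T O := ⟨hO1, hO2⟩
  obtain ⟨o, A, n, m, c, b, hcA, hbA, hmv, hSo⟩ :=
    sat_mv (ι := Fin r) hH hT hO (LinearMap.ker f) S hS hSK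
  -- the edges
  obtain ⟨d₁, hd₁⟩ := ffr_of_parts hInd (cp (Fin r) b)
    (sec b (sat (LinearMap.ker f) (SE T O A)) hmv.eqe) (fun P y hy => pr_mem_sec P hy)
    (fun a => ffr_part (κ := Fin s) hFree hVec hbA f _
      (he (b a.2).1 (b a.2).2 (hmv.bO a.2).2))
  have htfg : (sec b (sat (LinearMap.ker f) (SE T O A)) hmv.eqe).FG :=
    Module.Finite.iff_fg.1 hd₁.finite
  obtain ⟨t, ht⟩ := htfg
  obtain ⟨U₁, hU₁⟩ := exists_lin (M := F Γ (Fin r × Fin n)) (cp (Fin r) b)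
    (fun e : V × V => (unf c e.1).comp (eps Γ (Fin r) m).toAddMonoidHom) (by
      intro γ e y _
      change unf c (γ • e.1) (eps Γ (Fin r) m ((MonoidAlgebra.single γ (1 : ℤ) : ZG Γ) • y)) =
        (MonoidAlgebra.single γ (1 : ℤ) : ZG Γ) • unf c e.1 (eps Γ (Fin r) m y)
      rw [map_smul, unf_smul])
  obtain ⟨U₂, hU₂⟩ := exists_lin (M := F Γ (Fin r × Fin n)) (cp (Fin r) b)
    (fun e : V × V => (unf c e.2).comp (eps Γ (Fin r) m).toAddMonoidHom) (by
      intro γ e y _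
      change unf c (γ • e.2) (eps Γ (Fin r) m ((MonoidAlgebra.single γ (1 : ℤ) : ZG Γ) • y)) =
        (MonoidAlgebra.single γ (1 : ℤ) : ZG Γ) • unf c e.2 (eps Γ (Fin r) m y)
      rw [map_smul, unf_smul])
  have hUB : ∀ z ∈ sec b (sat (LinearMap.ker f) (SE T O A)) hmv.eqe,
      U₁ z ∈ sec c (sat (LinearMap.ker f) A) hmv.eqv ∧
      U₂ z ∈ sec c (sat (LinearMap.ker f) A) hmv.eqv := by
    intro z hz
    obtain ⟨q, hq, hq'⟩ := exists_sum_pr (cp (Fin r) b) z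
    have h1 : ∀ e, U₁ (pr (cp (Fin r) b) {e} z) ∈ sec c (sat (LinearMap.ker f) A) hmv.eqv ∧
        U₂ (pr (cp (Fin r) b) {e} z) ∈ sec c (sat (LinearMap.ker f) A) hmv.eqv := by
      intro e
      rw [hU₁ e _ (in_pr _ _ _), hU₂ e _ (in_pr _ _ _)]
      have h2 := pe_le hO hT hmv e _ (hz e)
      exact ⟨unf_mem_sec hmv.injc hmv.covv h2.1, unf_mem_sec hmv.injc hmv.covv h2.2⟩
    rw [hq', map_sum, map_sum]
    exact ⟨Submodule.sum_mem _ fun e _ => (h1 e).1, Submodule.sum_mem _ fun e _ => (h1 e).2⟩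
  -- the graded submodule
  obtain ⟨B', hB'B, hSB', hB'gr, hB'ffr⟩ := exists_pf (cp (Fin r) c)
    (sec c (sat (LinearMap.ker f) A) hmv.eqv) (fun P y hy => pr_mem_sec P hy)
    (fun a => lp_part (κ := Fin s) hFree hVec hcA f _ (hv (c a.2)))
    (((unf c o : F Γ (Fin r) →+ F Γ (Fin r × Fin n)) '' S) ∪ (U₁ '' (t : Set _) ∪
      U₂ '' (t : Set _)))
    ((hS.image _).union ((t.finite_toSet.image _).union (t.finite_toSet.image _))) (by
      rintro y (⟨g, hg, rfl⟩ | ⟨z, hz, rfl⟩ | ⟨z, hz, rfl⟩)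
      · exact unf_mem_sec hmv.injc hmv.covv (hSo g hg)
      · exact (hUB z (ht ▸ Submodule.subset_span hz)).1
      · exact (hUB z (ht ▸ Submodule.subset_span hz)).2)
  have hU₁B : sec b (sat (LinearMap.ker f) (SE T O A)) hmv.eqe ≤ B'.comap U₁ := by
    rw [← ht, Submodule.span_le]
    intro z hz
    exact hSB' (Or.inr (Or.inl ⟨z, hz, rfl⟩))
  have hU₂B : sec b (sat (LinearMap.ker f) (SE T O A)) hmv.eqe ≤ B'.comap U₂ := by
    rw [← ht, Submodule.span_le]
    intro z hz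
    exact hSB' (Or.inr (Or.inr ⟨z, hz, rfl⟩))
  have hPle : ∀ v, cutP c (sat (LinearMap.ker f) A) B' v ≤ sat (LinearMap.ker f) A v :=
    fun v y hy => hy.1
  have hmv2 : MV T O (cutP c (sat (LinearMap.ker f) A) B')
      (sat (LinearMap.ker f) (SE T O A)) c b :=
    { eqv := cutP_eqv c hmv.eqv B'
      eqe := hmv.eqe
      covv := fun x y hy => hmv.covv x y (hPle x hy)
      cove := hmv.cove
      injc := hmv.injc
      injb := hmv.injb
      bO := hmv.bO
      sub := by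
        intro e heO hadj x hx
        have h1 := hmv.sub e heO hadj hx
        have h2 := unf_mem_sec (hP := hmv.eqe) hmv.injb hmv.cove hx
        have h3 : eps Γ (Fin r) m (unf b e x) = x := eps_unf hmv.injb (hmv.cove e x hx)
        have h4 := hU₁B h2
        have h5 := hU₂B h2
        rw [Submodule.mem_comap, hU₁ e _ (unf_in b e x)] at h4
        rw [Submodule.mem_comap, hU₂ e _ (unf_in b e x)] at h5
        have h6 : unf c e.1 (eps Γ (Fin r) m (unf b e x)) ∈ B' := h4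
        have h7 : unf c e.2 (eps Γ (Fin r) m (unf b e x)) ∈ B' := h5
        rw [h3] at h6 h7
        exact ⟨⟨h1.1, h6⟩, ⟨h1.2, h7⟩⟩
      cut := fun e heO hadj y =>
        ⟨fun h1 h2 => (hmv.cut e heO hadj y).1 (hPle _ h1)
            (iSup₂_mono (fun w _ => hPle w) h2),
          fun h1 h2 => (hmv.cut e heO hadj y).2 (hPle _ h1)
            (iSup₂_mono (fun w _ => hPle w) h2)⟩ }
  obtain ⟨d, hinj, hker, hsur, _⟩ := hMV Γ V T hT O hO (Fin r)
    (cutP c (sat (LinearMap.ker f) A) B') (sat (LinearMap.ker f) (SE T O A)) n m c b hmv2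
  have hsec : sec c (cutP c (sat (LinearMap.ker f) A) B') hmv2.eqv = B' :=
    sec_cutP hmv.injc hmv.eqv hB'gr hB'B
  obtain ⟨d₀, hd₀⟩ : ∃ d, FFR (ZG Γ) d (sec c (cutP c (sat (LinearMap.ker f) A) B') hmv2.eqv) := by
    rw [hsec]
    exact ffr_of_parts hInd (cp (Fin r) c) B' hB'gr hB'ffr
  refine ⟨LinearMap.range (eps Γ (Fin r) n ∘ₗ
    (sec c (cutP c (sat (LinearMap.ker f) A) B') hmv2.eqv).subtype), ?_, ?_, max d₀ d₁ + 1, ?_⟩
  · intro y hy
    exact hsur y (AddSubgroup.mem_iSup_of_mem o ⟨hSo y hy, hSB' (Or.inl ⟨y, hy, rfl⟩)⟩)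
  · rintro _ ⟨y, rfl⟩
    obtain ⟨q, hq⟩ := exists_finset (cp (Fin r) c) (y : F Γ (Fin r × Fin n))
    have h1 : (eps Γ (Fin r) n) (y : F Γ (Fin r × Fin n)) =
        ∑ x ∈ q, eps Γ (Fin r) n (pr (cp (Fin r) c) {x} (y : F Γ (Fin r × Fin n))) := by
      rw [← map_sum, sum_pr, hq.eq]
    change (eps Γ (Fin r) n) (y : F Γ (Fin r × Fin n)) ∈ LinearMap.ker f
    rw [h1]
    exact Submodule.sum_mem _ fun x _ => (hPle x (y.2 x)).1
  · refine hSes (ZG Γ) (max d₀ d₁) _ _ _ d (LinearMap.rangeRestrict _) hinj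
      (LinearMap.surjective_rangeRestrict _) ?_ (hd₁.mono (le_max_right _ _))
      (hd₀.mono (le_max_left _ _))
    rw [hker, LinearMap.ker_rangeRestrict]

end Pool.Agent.Lib.MP_551055_al.LO
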