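import Pool.Agent.Lib.MP_551055_al.LO.Nil

/-!
# Directed unions of groups with locally perfect kernels
-/

set_option autoImplicit false

namespace Pool.Agent.Lib.MP_551055_al.LO

open Pool.Agent.Lib.MP_551055_al
open Pool.Agent.Lib.MP_551055_al.LS
open Pool.Agent.Lib.MP_551055_al.Red (Vec)

universe u v

section

variable {Γ : Type u} [Group Γ] {X : Type v} [MulAction Γ X] {ι κ : Type}

/-- The kernel of a graded map is graded. -/
theorem pr_mem_ker {p : ι → X} {q : κ → X} {f : F Γ ι →ₗ[ZG Γ] F Γ κ} (h : Gr p q f) (P : Set X)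
    (y : F Γ ι) (hy : y ∈ LinearMap.ker f) : pr p P y ∈ LinearMap.ker f := by
  rw [LinearMap.mem_ker] at hy ⊢
  rw [h, hy, map_zero]

/-- The parts of the kernel of a map are locally perfect. -/
theorem lp_homIn_ker (hFree : StHomFree.{u, v}) (hVec : StVecFree.{u}) [Finite ι] [Finite κ]
    (p : ι → X) (f : F Γ ι →ₗ[ZG Γ] F Γ κ) (x : X)
    (hx : LPK (MonoidAlgebra ℤ (MulAction.stabilizer Γ x))) :
    LP (homIn (LinearMap.ker f) p x) := by
  have hfree := hVec Γ (MulAction.stabilizer Γ x) κ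
  obtain ⟨k, ⟨e⟩⟩ := hFree Γ X ι p x
  refine lp_sub hx (homIn (⊤ : Submodule (ZG Γ) (F Γ ι)) p x) _
    ⟨0, Module.Finite.equiv e.symm, Module.Projective.of_equiv e.symm⟩
    (vecMap (MulAction.stabilizer Γ x) f ∘ₗ
      (homIn (⊤ : Submodule (ZG Γ) (F Γ ι)) p x).subtype) (fun y => ?_)
    (fun _ hy => ⟨hy.1, trivial⟩)
  constructor
  · intro h
    exact ⟨y.2.1, h⟩
  · intro h
    exact h.2

end

/-- The kernels over the group ring of `Γ` are locally perfect if every finite subset of `Γ` is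
contained in a subgroup with this property. -/
theorem lpk_local (hInd : StInd.{u, u}) (hFree : StHomFree.{u, u}) (hVec : StVecFree.{u})
    {Γ : Type u} [Group Γ]
    (h : ∀ E : Set Γ, E.Finite → ∃ Δ : Subgroup Γ, E ⊆ Δ ∧ LPK (MonoidAlgebra ℤ Δ)) :
    LPK (ZG Γ) := by
  classical
  intro n m f S hS hSK
  let e : Fin n → F Γ (Fin n) := fun i =>
    @Pi.single (Fin n) (fun _ => ZG Γ) _ (fun a b => Classical.propDecidable (a = b)) i 1
  obtain ⟨Δ, hEΔ, hLP⟩ := h (⋃ i : Fin n, ⋃ j : Fin m,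
    {γ | (f (e i) j).coeff γ ≠ 0}) (Set.finite_iUnion fun i =>
      Set.finite_iUnion fun j => (f (e i) j).coeff.hasFiniteSupport)
  let x0 : Γ ⧸ Δ := (1 : Γ)
  have hst : MulAction.stabilizer Γ x0 = Δ := MulAction.stabilizer_quotient Δ
  have hgr : Gr (fun _ : Fin n => x0) (fun _ : Fin m => x0) f := by
    refine gr_iff_tr.2 (tr_of_basis (fun γ a b hab => by rw [hab]) fun i => ?_)
    refine in_iff.2 fun j γ hne => ?_
    have h1 : γ ∈ Δ := hEΔ (Set.mem_iUnion.2 ⟨i, Set.mem_iUnion.2 ⟨j, hne⟩⟩)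
    rw [← hst, MulAction.mem_stabilizer_iff] at h1
    exact h1.symm
  have hx0 : LPK (MonoidAlgebra ℤ (MulAction.stabilizer Γ x0)) := by
    rw [hst]
    exact hLP
  obtain ⟨B', h1, h2, h3, h4⟩ := exists_pf (fun _ : Fin n => x0) (LinearMap.ker f)
    (pr_mem_ker hgr) (fun _ => lp_homIn_ker (κ := Fin m) hFree hVec _ f x0 hx0) S hS hSK
  exact ⟨B', h2, h1, ffr_of_parts hInd _ B' h3 h4⟩

end Pool.Agent.Lib.MP_551055_al.LO
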