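import Pool.Agent.Lib.MP_551055_al.LO.Stmts
import Pool.Agent.Lib.MP_551055_al.LO.Tree
import Pool.Agent.Lib.MP_551055_al.LO.Union
import Pool.Agent.Lib.MP_551055_al.LS.Clo2
import Pool.Agent.Lib.MP_551055_al.PT.Clo
import Pool.Agent.Lib.MP_551055_al.LS.VecFree
import Pool.Agent.Lib.MP_551055_al.LS.Ind

/-!
# The closure theorems
-/

set_option autoImplicit false

namespace Pool.Agent.Lib.MP_551055_al.LO

open Pool.Agent.Lib.MP_551055_al
open Pool.Agent.Lib.MP_551055_al.LS
open Pool.Agent.Lib.MP_551055_al.PT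

/-- The kernels over all group rings `ℤ[D × ℤ^m]` are locally perfect. -/
def LocPerf (D : Type) [Group D] : Prop := ∀ m : ℕ, LPK (MonoidAlgebra ℤ (D × ZN m))

theorem LocPerf.of_small (hP : StPFin) {D : Type} [Group D] (h : LS.Small D) : LocPerf D :=
  fun m => LPK.of_regCoh (h.regCoh hP m)

theorem LocPerf.congr {D D' : Type} [Group D] [Group D'] (e : D ≃* D') (h : LocPerf D) :
    LocPerf D' := fun m =>
  (h m).congr (MonoidAlgebra.mapDomainRingEquiv ℤ (MulEquiv.prodCongr e (MulEquiv.refl _)))

/-- Unions. -/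
theorem LocPerf.of_local {D : Type} [Group D]
    (h : ∀ s : Finset D, ∃ H : Subgroup D, (s : Set D) ⊆ H ∧ LocPerf H) : LocPerf D := by
  classical
  intro m
  refine lpk_local stInd stHomFree stVecFree fun E hE => ?_
  obtain ⟨H, hH, hL⟩ := h (hE.toFinset.image Prod.fst)
  refine ⟨H.prod (⊤ : Subgroup (ZN m)), fun γ hγ => ?_, ?_⟩
  · refine Subgroup.mem_prod.2 ⟨hH ?_, Subgroup.mem_top _⟩
    rw [Finset.coe_image]
    exact ⟨γ, hE.mem_toFinset.2 hγ, rfl⟩
  · exact (hL m).congr (MonoidAlgebra.mapDomainRingEquiv ℤ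
      ((MulEquiv.prodCongr (MulEquiv.refl _) Subgroup.topEquiv.symm).trans
      (Subgroup.prodEquiv _ _).symm))

/-- Actions on trees with small edge stabilisers. -/
theorem LocPerf.of_tree (hL : StTreeL.{0, 0}) (hP : StPFin) {D : Type} [Group D] (V : Type)
    [MulAction D V] (T : SimpleGraph V) (hT : TreeAct D V T)
    (hv : ∀ v : V, LocPerf (MulAction.stabilizer D v))
    (he : ∀ u v, T.Adj u v → LS.Small (MulAction.stabilizer D (u, v))) : LocPerf D := by
  intro m
  let _ : MulAction (D × ZN m) V := MulAction.compHom V (MonoidHom.fst D (ZN m))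
  have hA : TreeAct (D × ZN m) V T :=
    { tree := hT.tree
      adj := fun γ a b hab => hT.adj γ.1 a b hab
      inv := fun γ a b hab h => hT.inv γ.1 a b hab h }
  refine hL (D × ZN m) V T hA (fun v => ?_) (fun u v huv => ?_)
  · exact (hv v m).congr (MonoidAlgebra.mapDomainRingEquiv ℤ
      { toFun := fun γ => ⟨(γ.1.1, γ.2), γ.1.2⟩
        invFun := fun γ => (⟨γ.1.1, γ.2⟩, γ.1.2)
        left_inv := fun _ => rfl
        right_inv := fun _ => rfl
        map_mul' := fun _ _ => rfl })
  · exact RegCoh.congr (MonoidAlgebra.mapDomainRingEquiv ℤ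
      { toFun := fun γ => ⟨(γ.1.1, γ.2), γ.1.2⟩
        invFun := fun γ => (⟨γ.1.1, γ.2⟩, γ.1.2)
        left_inv := fun _ => rfl
        right_inv := fun _ => rfl
        map_mul' := fun _ _ => rfl }) ((he u v huv).regCoh hP m)

/-- The closure theorem. -/
theorem closure_treesL (hF : StFinalEL.{0, 0}) (n : ℕ) (G : Type) [Group G] (V : Type)
    [MulAction G V] (T : SimpleGraph V) (hT : TreeAct G V T)
    (hv : ∀ v : V, VN.ProjStFree (MulAction.stabilizer G v × ZN n))
    (he : ∀ u v, T.Adj u v → VN.ProjStFree (MulAction.stabilizer G (u, v) × ZN (n + 1)))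
    (S : V → V → Prop) (hbar : Bar T S)
    (hx : ∀ u v, S u v → u ≠ v →
      LPK (MonoidAlgebra ℤ (MulAction.stabilizer G (u, v) × ZN (n + 1))) ∨
      ∀ g : G, Trl T g u v →
        VN.ProjStFree (↥(MulAction.stabilizer G (u, v) ⊔ Subgroup.zpowers g) × ZN n)) :
    VN.ProjStFree (G × ZN n) := by
  let _ : MulAction (G × ZN n) V := MulAction.compHom V (MonoidHom.fst G (ZN n))
  have hsmul : ∀ (γ : G × ZN n) (x : V), γ • x = γ.1 • x := fun _ _ => rfl
  have hT' : TreeAct (G × ZN n) V T :=
    { tree := hT.tree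
      adj := fun γ a b hab => hT.adj γ.1 a b hab
      inv := fun γ a b hab h => hT.inv γ.1 a b hab h }
  -- stabilisers
  have hst1 : ∀ a : V, Nonempty (MulAction.stabilizer G a × ZN n ≃*
      MulAction.stabilizer (G × ZN n) a) := by
    intro a
    exact ⟨{ toFun := fun γ => ⟨(γ.1.1, γ.2), γ.1.2⟩
             invFun := fun γ => (⟨γ.1.1, γ.2⟩, γ.1.2)
             left_inv := fun _ => rfl
             right_inv := fun _ => rfl
             map_mul' := fun _ _ => rfl }⟩
  have hst2 : ∀ a : V × V, Nonempty (MulAction.stabilizer G a × ZN n ≃*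
      MulAction.stabilizer (G × ZN n) a) := by
    intro a
    exact ⟨{ toFun := fun γ => ⟨(γ.1.1, γ.2), γ.1.2⟩
             invFun := fun γ => (⟨γ.1.1, γ.2⟩, γ.1.2)
             left_inv := fun _ => rfl
             right_inv := fun _ => rfl
             map_mul' := fun _ _ => rfl }⟩
  have hst3 : ∀ a : V × V, Nonempty (MulAction.stabilizer G a × ZN (n + 1) ≃*
      MulAction.stabilizer (G × ZN n) a × Multiplicative ℤ) := by
    intro a
    obtain ⟨e⟩ := hst2 a
    exact ⟨(znSucc (MulAction.stabilizer G a) n).symm.trans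
      (MulEquiv.prodCongr e (MulEquiv.refl (Multiplicative ℤ)))⟩
  have hsup : ∀ (a : V × V) (γ : G × ZN n), Nonempty
      (↥(MulAction.stabilizer G a ⊔ Subgroup.zpowers γ.1) × ZN n ≃*
        ↥(MulAction.stabilizer (G × ZN n) a ⊔ Subgroup.zpowers γ)) := by
    intro a γ
    have h0 : MulAction.stabilizer (G × ZN n) a ⊔ Subgroup.zpowers γ =
        (MulAction.stabilizer G a ⊔ Subgroup.zpowers γ.1).prod (⊤ : Subgroup (ZN n)) := by
      apply le_antisymm
      · refine sup_le (fun δ hδ => ?_) ?_
        · refine Subgroup.mem_prod.2 ⟨?_, Subgroup.mem_top _⟩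
          exact (le_sup_left : _ ≤ MulAction.stabilizer G a ⊔ Subgroup.zpowers γ.1) hδ
        · rw [Subgroup.zpowers_le]
          refine Subgroup.mem_prod.2 ⟨?_, Subgroup.mem_top _⟩
          exact (le_sup_right : _ ≤ MulAction.stabilizer G a ⊔ Subgroup.zpowers γ.1)
            (Subgroup.mem_zpowers _)
      · have hone : ∀ t : ZN n, ((1 : G), t) ∈ MulAction.stabilizer (G × ZN n) a := by
          intro t
          rw [MulAction.mem_stabilizer_iff]
          exact Prod.ext (one_smul G a.1) (one_smul G a.2)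
        have hfst : ∀ g ∈ MulAction.stabilizer G a ⊔ Subgroup.zpowers γ.1,
            (g, (1 : ZN n)) ∈
              MulAction.stabilizer (G × ZN n) a ⊔ Subgroup.zpowers γ := by
          intro g hg
          have h1 : MulAction.stabilizer G a ⊔ Subgroup.zpowers γ.1 ≤
              (MulAction.stabilizer (G × ZN n) a ⊔ Subgroup.zpowers γ).comap
                (MonoidHom.inl G (ZN n)) := by
            refine sup_le (fun δ hδ => ?_) ?_
            · exact (le_sup_left : _ ≤ MulAction.stabilizer (G × ZN n) a ⊔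
                Subgroup.zpowers γ) hδ
            · rw [Subgroup.zpowers_le]
              change (γ.1, (1 : ZN n)) ∈
                MulAction.stabilizer (G × ZN n) a ⊔ Subgroup.zpowers γ
              have h2 : (γ.1, (1 : ZN n)) = γ * (1, γ.2⁻¹) := by
                rw [Prod.ext_iff]
                exact ⟨(mul_one _).symm, (mul_inv_cancel _).symm⟩
              rw [h2]
              exact Subgroup.mul_mem _
                ((le_sup_right : _ ≤ MulAction.stabilizer (G × ZN n) a ⊔
                  Subgroup.zpowers γ) (Subgroup.mem_zpowers _))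
                ((le_sup_left : _ ≤ MulAction.stabilizer (G × ZN n) a ⊔
                  Subgroup.zpowers γ) (hone _))
          exact h1 hg
        rintro ⟨g, t⟩ hgt
        have h3 := hfst g (Subgroup.mem_prod.1 hgt).1
        have h4 : ((g, t) : G × ZN n) = (g, 1) * (1, t) := by
          rw [Prod.mk_mul_mk, mul_one, one_mul]
        rw [h4]
        exact Subgroup.mul_mem _ h3
          ((le_sup_left : _ ≤ MulAction.stabilizer (G × ZN n) a ⊔
            Subgroup.zpowers γ) (hone t))
    rw [h0]
    exact ⟨(MulEquiv.prodCongr (MulEquiv.refl _) Subgroup.topEquiv.symm).trans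
      (Subgroup.prodEquiv _ _).symm⟩
  refine hF (G × ZN n) V T hT' (fun v => ?_) (fun u v huv => ?_) S hbar fun u v huv hne => ?_
  · obtain ⟨e⟩ := hst1 v
    exact projStFree_congr e (hv v)
  · obtain ⟨e⟩ := hst3 (u, v)
    exact projStFree_congr e (he u v huv)
  · rcases hx u v huv hne with h1 | h
    · left
      rw [stab_swap] at h1
      obtain ⟨e⟩ := hst3 (v, u)
      exact h1.congr (MonoidAlgebra.mapDomainRingEquiv ℤ e)
    · right
      intro γ hγ
      have h1 := h γ.1 hγ
      rw [stab_swap] at h1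
      obtain ⟨e⟩ := hsup (v, u) γ
      exact projStFree_congr e h1

end Pool.Agent.Lib.MP_551055_al.LO
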