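import Pool.Agent.Lib.MP_551055_al.LO.Stmts
import Pool.Agent.Lib.MP_551055_al.LS.Orb

/-!
# Module OrbL: matrices supported on one orbit of pairs
-/

set_option autoImplicit false

namespace Pool.Agent.Lib.MP_551055_al.LO

open Pool.Agent.Lib.MP_551055_al
open Pool.Agent.Lib.MP_551055_al.LS

universe u v

open OrbAux in
/-- Module OrbL. -/
theorem stOrbL (hNil : StNilL.{u, v}) (hUnip : StUnip.{u}) : StOrbL.{u, v} := by
  classical
  intro Γ _ K hM X _ r hr ι _ _ p j B k hj hBk hD x0 z0 hxz0 hg
  by_cases hB : B = 0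
  · rw [hB, add_zero, Matrix.toLinearMapRight'_one]
    exact K_id K ι
  obtain ⟨i0, l0, γ0, h0⟩ : ∃ i l γ, (B i l).coeff γ ≠ 0 := by
    by_contra hne
    push Not at hne
    apply hB
    ext1 i l
    apply MonoidAlgebra.ext
    ext γ
    exact hne i l γ
  obtain ⟨x, hx⟩ : ∃ x, x = p i0 := ⟨_, rfl⟩
  obtain ⟨z, hz⟩ : ∃ z, z = γ0 • p l0 := ⟨_, rfl⟩
  have hxz : OrbS p B x z := by
    intro i l γ hne
    obtain ⟨h, h1, h2⟩ := hxz0 i l γ hne
    obtain ⟨h', h1', h2'⟩ := hxz0 i0 l0 γ0 h0
    refine ⟨h * h'⁻¹, ?_, ?_⟩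
    · rw [hx, h1', smul_smul, inv_mul_cancel_right, h1]
    · rw [hz, h2', smul_smul, inv_mul_cancel_right, h2]
  have hitr : itr r j x z := by
    rw [hx, hz]
    exact hD i0 l0 γ0 h0
  have hgx : PosGoodL K r x := by
    rw [hx]
    exact hg i0
  have hrow : ∀ i l γ, (B i l).coeff γ ≠ 0 → p i ∈ MulAction.orbit Γ x ∧ p l ∈ MulAction.orbit Γ z := by
    intro i l γ hne
    obtain ⟨h, h1, h2⟩ := hxz i l γ hne
    refine ⟨⟨h, h1.symm⟩, ⟨γ⁻¹ * h, ?_⟩⟩
    change (γ⁻¹ * h) • z = p l
    rw [mul_smul, ← h2, inv_smul_smul]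
  have hlin : Matrix.toLinearMapRight' (1 + B) =
      LinearMap.id + Matrix.toLinearMapRight' B := by
    rw [map_add, Matrix.toLinearMapRight'_one]
  by_cases hzo : z ∈ MulAction.orbit Γ x
  swap
  · -- different orbits
    have hdis : ∀ q : X, q ∈ MulAction.orbit Γ x → q ∉ MulAction.orbit Γ z := by
      rintro q ⟨a, ha⟩ ⟨b, hb⟩
      apply hzo
      refine ⟨b⁻¹ * a, ?_⟩
      change (b⁻¹ * a) • x = z
      have ha' : a • x = q := ha
      have hb' : b • z = q := hb
      rw [mul_smul, ha', ← hb', inv_smul_smul]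
    rw [hlin]
    refine hUnip (ZG Γ) K ι (fun i => if p i ∈ MulAction.orbit Γ x then 1 else 0) _ ?_
    intro t y hy l hl
    rw [Matrix.toLinearMapRight'_apply, Matrix.vecMul_eq_sum, Finset.sum_apply]
    refine Finset.sum_eq_zero fun i _ => ?_
    change y i * B i l = 0
    by_cases hBil : B i l = 0
    · rw [hBil, mul_zero]
    · obtain ⟨γ, hγ⟩ : ∃ γ, (B i l).coeff γ ≠ 0 := by
        by_contra hne
        push Not at hne
        exact hBil (MonoidAlgebra.ext (Finsupp.ext hne))
      obtain ⟨h1, h2⟩ := hrow i l γ hγ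
      have h3 : p l ∉ MulAction.orbit Γ x := fun h => hdis _ h h2
      have h4 : t = 0 := by
        rw [if_neg h3] at hl
        omega
      have h5 : y i = 0 := by
        apply hy
        rw [h4, if_pos h1]
      rw [h5, zero_mul]
  · obtain ⟨g, hgz⟩ := hzo
    have hgz' : g • x = z := hgz
    have hrow' : ∀ i l γ, (B i l).coeff γ ≠ 0 →
        p i ∈ MulAction.orbit Γ x ∧ p l ∈ MulAction.orbit Γ x := by
      intro i l γ hne
      obtain ⟨h1, a, ha⟩ := hrow i l γ hne
      have ha' : a • z = p l := ha
      refine ⟨h1, a * g, ?_⟩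
      change (a * g) • x = p l
      rw [mul_smul, hgz', ha']
    rcases hgx with hreg | hE
    · -- locally perfect kernels
      rw [hlin]
      refine hNil Γ K X (itr r j) (ur_itr hr j) ι
        (fun i => if p i ∈ MulAction.orbit Γ x then p i else x) _ ?_ ?_ ?_
      · refine ⟨k, ?_⟩
        rw [← toLin_pow, hBk, map_zero]
      · intro P y hy
        rw [in_iff] at hy ⊢
        intro l γ hne
        rw [Matrix.toLinearMapRight'_apply, Matrix.vecMul_eq_sum, Finset.sum_apply] at hne
        obtain ⟨i, _, hi⟩ := exists_of_coeff_sum hne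
        obtain ⟨a, b, ha, hb, hab⟩ := exists_of_coeff_mul hi
        obtain ⟨h1, h2⟩ := hrow' i l b hb
        have h3 := hy i a ha
        rw [if_pos h1] at h3
        refine ⟨_, h3, ?_⟩
        rw [if_pos h2, ← hab, mul_smul]
        exact itr_smul hr a j _ _ (hD i l b hb)
      · intro i
        have key : ∀ q : X, q ∈ MulAction.orbit Γ x →
            LPK (MonoidAlgebra ℤ (MulAction.stabilizer Γ q)) := by
          rintro q ⟨a, ha⟩
          exact LPK.congr (MonoidAlgebra.mapDomainRingEquiv ℤ
            (MulAction.stabilizerEquivStabilizer (g := a) ha.symm)) hreg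
        refine key _ ?_
        split_ifs with h
        · exact h
        · exact MulAction.mem_orbit_self x
    · -- the subgroup generated by the stabiliser and `g`
      have hSG : SGood K (MulAction.stabilizer Γ x ⊔ Subgroup.zpowers g) :=
        hE g j hj (by rw [hgz']; exact hitr)
      obtain ⟨E, hEdef⟩ : ∃ E, E = MulAction.stabilizer Γ x ⊔ Subgroup.zpowers g := ⟨_, rfl⟩
      rw [← hEdef] at hSG
      have hgE : g ∈ E := by
        rw [hEdef]
        exact (le_sup_right : _ ≤ MulAction.stabilizer Γ x ⊔ Subgroup.zpowers g)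
          (Subgroup.mem_zpowers g)
      have hDE : ∀ d : Γ, d • x = x → d ∈ E := by
        intro d hd
        rw [hEdef]
        exact (le_sup_left : _ ≤ MulAction.stabilizer Γ x ⊔ Subgroup.zpowers g) hd
      -- the diagonal matrix
      have hc : ∀ i, ∃ c : Γ, p i ∈ MulAction.orbit Γ x → p i = c • x := by
        intro i
        by_cases h : p i ∈ MulAction.orbit Γ x
        · obtain ⟨c, hc⟩ := h
          exact ⟨c, fun _ => hc.symm⟩
        · exact ⟨1, fun h' => absurd h' h⟩
      choose c hc using hc
      let C : Matrix ι ι (ZG Γ) := Matrix.diagonal fun i => MonoidAlgebra.single (c i) 1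
      let C' : Matrix ι ι (ZG Γ) := Matrix.diagonal fun i => MonoidAlgebra.single (c i)⁻¹ 1
      have hCC' : C * C' = 1 := by
        rw [Matrix.diagonal_mul_diagonal, ← Matrix.diagonal_one]
        congr 1
        funext i
        rw [MonoidAlgebra.single_mul_single, mul_inv_cancel, mul_one]
        rfl
      have hC'C : C' * C = 1 := by
        rw [Matrix.diagonal_mul_diagonal, ← Matrix.diagonal_one]
        congr 1
        funext i
        rw [MonoidAlgebra.single_mul_single, inv_mul_cancel, mul_one]
        rfl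
      let M : Matrix ι ι (ZG Γ) := C' * B * C
      have hMk : M ^ k = 0 := by
        have h1 : ∀ m : ℕ, M ^ m = C' * B ^ m * C := by
          intro m
          induction m with
          | zero => rw [pow_zero, pow_zero, mul_one, hC'C]
          | succ m ih =>
            rw [pow_succ, ih, pow_succ]
            calc C' * B ^ m * C * (C' * B * C) = C' * B ^ m * (C * C') * B * C := by
                  simp only [mul_assoc]
              _ = C' * (B ^ m * B) * C := by rw [hCC', mul_one]; simp only [mul_assoc]
        rw [h1, hBk, mul_zero, zero_mul]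
      have hMcoeff : ∀ i l, M i l = MonoidAlgebra.single (c i)⁻¹ 1 * B i l *
          MonoidAlgebra.single (c l) 1 := by
        intro i l
        change (C' * B * C) i l = _
        rw [Matrix.mul_diagonal, Matrix.diagonal_mul]
      have hMsupp : ∀ i l γ, (M i l).coeff γ ≠ 0 → γ ∈ E := by
        intro i l γ hne
        rw [hMcoeff] at hne
        obtain ⟨a, b, ha, hb, hab⟩ := exists_of_coeff_mul hne
        obtain ⟨a1, a2, ha1, ha2, ha12⟩ := exists_of_coeff_mul ha
        have hb' : b = c l := by
          by_contra hne'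
          apply hb
          rw [MonoidAlgebra.coeff_single, Finsupp.single_apply, if_neg (Ne.symm hne')]
        have ha1' : a1 = (c i)⁻¹ := by
          by_contra hne'
          apply ha1
          rw [MonoidAlgebra.coeff_single, Finsupp.single_apply, if_neg (Ne.symm hne')]
        obtain ⟨h, h1, h2⟩ := hxz i l a2 ha2
        obtain ⟨h3, h4⟩ := hrow' i l a2 ha2
        have h5 := hc i h3
        have h6 := hc l h4
        -- `(c i)⁻¹ * h` fixes `x`
        have h7 : (c i)⁻¹ * h ∈ E := by
          apply hDE
          rw [mul_smul, ← h1, h5, inv_smul_smul]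
        have h8 : g⁻¹ * (h⁻¹ * a2 * c l) ∈ E := by
          apply hDE
          rw [mul_smul, mul_smul, mul_smul, ← h6, h2, inv_smul_smul, ← hgz', inv_smul_smul]
        have h9 : γ = ((c i)⁻¹ * h) * g * (g⁻¹ * (h⁻¹ * a2 * c l)) := by
          rw [← hab, ← ha12, ha1', hb']
          group
        rw [h9]
        exact E.mul_mem (E.mul_mem h7 hgE) h8
      have hinj : Function.Injective E.subtype := Subtype.val_injective
      let M0 : Matrix ι ι (MonoidAlgebra ℤ E) := fun i l => prj ℤ E.subtype hinj (M i l)
      have hM0 : M0.map (inc ℤ E.subtype) = M := by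
        ext1 i l
        change inc ℤ E.subtype (prj ℤ E.subtype hinj (M i l)) = M i l
        apply MonoidAlgebra.ext
        ext γ
        by_cases hγ : γ ∈ Set.range E.subtype
        · obtain ⟨h', rfl⟩ := hγ
          rw [inc_coeff_apply E.subtype hinj, prj_coeff]
        · rw [inc_coeff_of_notMem E.subtype _ γ hγ]
          by_contra hne
          exact hγ ⟨⟨γ, hMsupp i l γ (Ne.symm hne)⟩, rfl⟩
      have hmapinj : Function.Injective fun A : Matrix ι ι (MonoidAlgebra ℤ E) =>
          A.map (inc ℤ E.subtype) := Matrix.map_injective (inc_injective E.subtype hinj)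
      have hM0k : M0 ^ k = 0 := by
        apply hmapinj
        change (M0 ^ k).map (inc ℤ E.subtype) = (0 : Matrix ι ι (MonoidAlgebra ℤ E)).map _
        have h1 : (M0 ^ k).map (inc ℤ E.subtype) = (M0.map (inc ℤ E.subtype)) ^ k :=
          map_pow (RingHom.mapMatrix (inc ℤ E.subtype)) M0 k
        rw [h1, hM0, hMk]
        exact (map_zero (RingHom.mapMatrix (m := ι) (inc ℤ E.subtype))).symm
      obtain ⟨hi1, hi2⟩ := nil_inv hM0k
      have h1 := hSG ι ι (1 + M0) _ hi1 hi2
      have h2 : (1 + M0).map (inc ℤ E.subtype) = 1 + M := by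
        have h3 : (1 + M0).map (inc ℤ E.subtype) =
            RingHom.mapMatrix (inc ℤ E.subtype) 1 + RingHom.mapMatrix (inc ℤ E.subtype) M0 :=
          map_add (RingHom.mapMatrix (inc ℤ E.subtype)) 1 M0
        rw [h3, map_one]
        exact congrArg (1 + ·) hM0
      rw [h2] at h1
      have h3 : 1 + B = C * (1 + M) * C' := by
        rw [mul_add, add_mul, mul_one, hCC']
        congr 1
        change B = C * (C' * B * C) * C'
        calc B = (C * C') * B * (C * C') := by rw [hCC', one_mul, mul_one]
          _ = C * (C' * B * C) * C' := by simp only [mul_assoc]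
      have hCG : K.G (Matrix.toLinearMapRight' C) := by
        refine hM ι c _ fun y i => ?_
        rw [Matrix.toLinearMapRight'_apply]
        exact Matrix.vecMul_diagonal _ _ _
      have hC'G : K.G (Matrix.toLinearMapRight' C') := by
        refine hM ι (fun i => (c i)⁻¹) _ fun y i => ?_
        rw [Matrix.toLinearMapRight'_apply]
        exact Matrix.vecMul_diagonal _ _ _
      rw [h3, Matrix.toLinearMapRight'_mul, Matrix.toLinearMapRight'_mul]
      exact K.comp _ _ (K.comp _ _ hCG h1) hC'G

end Pool.Agent.Lib.MP_551055_al.LO
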