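import Pool.Agent.Lib.MP_551055_al.LO.Stmts
import Pool.Agent.Lib.MP_551055_al.LS.NilE
import Pool.Agent.Lib.MP_551055_al.LS.RayE

/-!
# Modules NilEL and RayEL
-/

set_option autoImplicit false

namespace Pool.Agent.Lib.MP_551055_al.LO

open Pool.Agent.Lib.MP_551055_al
open Pool.Agent.Lib.MP_551055_al.LS

universe u v

/-- Module NilEL. -/
theorem stNilEL (hE : StElim.{u, v}) (hO : StOrbL.{u, v}) : StNilEL.{u, v} := by
  classical
  intro Γ _ K hM X _ r hr ι _ p ν hν htr hg
  have := Fintype.ofFinite ι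
  obtain ⟨k, hk⟩ := hν
  let A : Matrix ι ι (ZG Γ) := LinearMap.toMatrixRight' ν
  have hA : Matrix.toLinearMapRight' A = ν := LinearEquiv.symm_apply_apply _ _
  have hpow : A ^ k = 0 := by
    apply Matrix.toLinearMapRight'.injective
    rw [map_zero, toLin_pow, hA, hk]
  have hD : Dg r 1 p A := by
    intro i l γ hne
    have h1 : In p {b | ∃ a ∈ ({p i} : Set X), r a b} (ν (Pi.single i 1)) :=
      htr {p i} _ (in_basis_one p i)
    have h3 : ν (Pi.single i 1) l = A i l := by
      rw [← hA, Matrix.toLinearMapRight'_apply, Matrix.single_one_vecMul]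
      rfl
    obtain ⟨a, ha, hab⟩ := in_iff.1 h1 l γ (by rw [h3]; exact hne)
    rw [Set.mem_singleton_iff.1 ha] at hab
    exact ⟨_, hab, rfl⟩
  have h := hE Γ K X r hr ι p A k hpow hD fun j B hj hB hDB x z hxz =>
    hO Γ K hM X r hr ι p j B k hj hB hDB x z hxz hg
  rw [map_add, Matrix.toLinearMapRight'_one, hA] at h
  exact h

/-- Module RayEL. -/
theorem stRayEL (hN : StNilEL.{u, v}) (hS : StStepP.{u, v}) (hB : StTreeB.{u, v}) :
    StRayEL.{u, v} := by
  intro Γ _ V _ T hT K hM S hbar hgood ι _ p ν hp hnil htr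
  -- the step
  have hstep : ∀ (m : ℕ) (s : Lev Γ T m), ∃ (s' : Lev Γ T (m + 1)) (π : s'.ι → s.ι),
      (∀ k, (s'.p k).2 = (s.p (π k)).2 ∧ T.Adj (s'.p k).1 (s.p (π k)).1) ∧
      (K.G ((1 : Module.End (ZG Γ) (F Γ s'.ι)) + s'.ν) →
        K.G ((1 : Module.End (ZG Γ) (F Γ s.ι)) + s.ν)) := by
    intro m s
    obtain ⟨κ, hκ, q, π, μ, h1, h2, h3, h4, h5⟩ :=
      hS Γ V T hT K (m + 1) (Nat.le_add_left 1 m) s.ι s.p s.ν s.dist s.nil s.tr
    exact ⟨⟨κ, hκ, q, μ, h1, h3, h4⟩, π, h2, h5⟩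
  choose nx π hπ hG using hstep
  have hι : Finite ι := inferInstance
  generalize hs0 : (⟨ι, hι, p, ν, hp, hnil, htr⟩ : Lev Γ T 0) = s0
  have hgoal : K.G ((1 : Module.End (ZG Γ) (F Γ s0.ι)) + s0.ν) →
      K.G ((1 : Module.End (ZG Γ) (F Γ ι)) + ν) := by
    rw [← hs0]
    exact fun h => h
  apply hgoal
  clear hgoal hs0
  have hdown : ∀ m, K.G ((1 : Module.End (ZG Γ) (F Γ (levSeq s0 nx m).ι)) + (levSeq s0 nx m).ν) →
      K.G ((1 : Module.End (ZG Γ) (F Γ s0.ι)) + s0.ν) := by
    intro m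
    induction m with
    | zero => exact fun h => h
    | succ m ih => exact fun h => ih (hG m (levSeq s0 nx m) h)
  by_cases hall : ∃ m, ∀ k : (levSeq s0 nx m).ι,
      S ((levSeq s0 nx m).p k).2 ((levSeq s0 nx m).p k).1
  · obtain ⟨m, hm⟩ := hall
    refine hdown m (hN Γ K hM (V × V) (sh T (m + 1)) (hB Γ V T hT (m + 1) (Nat.le_add_left 1 m)).1
      (levSeq s0 nx m).ι (levSeq s0 nx m).p (levSeq s0 nx m).ν (levSeq s0 nx m).nil
      (levSeq s0 nx m).tr fun k => ?_)
    have hd := (levSeq s0 nx m).dist k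
    have hmk := hm k
    generalize (levSeq s0 nx m).p k = a at hd hmk
    obtain ⟨v, u⟩ := a
    have hd' : T.dist v u = m + 1 := hd
    have hne : u ≠ v := fun h => by
      rw [h, T.dist_self] at hd'
      omega
    rcases hgood u v hmk hne with h | h
    · exact Or.inl h
    · refine Or.inr fun γ j hj hjγ => h γ ?_
      obtain ⟨h1, h2⟩ := itr_dist hT.tree (Nat.le_add_left 1 m) _ j (v, u) hd' hjγ
      obtain ⟨h3, h4⟩ := itr_dist_snd hT.tree (Nat.le_add_left 1 m) _ j (v, u) hd' hjγ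
      have h1' : T.dist (γ • v) v = j := h1
      have h2' : T.dist (γ • v) u = j + (m + 1) := h2
      have h3' : T.dist (γ • v) (γ • u) = m + 1 := h3
      have h4' : T.dist (γ • u) u = j := h4
      rw [T.dist_comm] at h1' h2' h3' h4' hd'
      refine ⟨fun he => ?_, ?_, ?_⟩
      · rw [he, T.dist_self] at h1'
        omega
      · rw [h1', h2', hd', Nat.add_comm]
      · rw [h2', h3', h4']
  exfalso
  push Not at hall
  -- the bad indices
  let B : ℕ → Type := fun m => {k : (levSeq s0 nx m).ι //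
    ¬ S ((levSeq s0 nx m).p k).2 ((levSeq s0 nx m).p k).1}
  let f : ∀ m, B (m + 1) → B m := fun m k =>
    ⟨π m (levSeq s0 nx m) k.1, fun h => k.2 (by
      have h1 := (hπ m (levSeq s0 nx m) k.1).1
      have h2 := (hπ m (levSeq s0 nx m) k.1).2
      have h3 := (levSeq s0 nx m).dist (π m (levSeq s0 nx m) k.1)
      have h4 := (levSeq s0 nx (m + 1)).dist k.1
      rw [show ((levSeq s0 nx (m + 1)).p k.1).2 = ((levSeq s0 nx m).p (π m (levSeq s0 nx m) k.1)).2
        from h1]
      refine hbar.pro _ _ _ h h2.symm ?_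
      rw [show ((levSeq s0 nx (m + 1)).p k.1).2 = ((levSeq s0 nx m).p (π m (levSeq s0 nx m) k.1)).2
        from h1, T.dist_comm] at h4
      rw [T.dist_comm] at h3
      rw [h3]
      exact h4)⟩
  have hBfin : ∀ m, Finite (B m) := fun m =>
    inferInstanceAs (Finite {k : (levSeq s0 nx m).ι //
      ¬ S ((levSeq s0 nx m).p k).2 ((levSeq s0 nx m).p k).1})
  have hBne : ∀ m, Nonempty (B m) := fun m => (hall m).elim fun k hk => ⟨⟨k, hk⟩⟩
  obtain ⟨k, hk⟩ := exists_coherent B f hBfin hBne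
  -- the ray
  let x : ℕ → V := fun n => Nat.casesOn n ((levSeq s0 nx 0).p (k 0).1).2
    fun m => ((levSeq s0 nx m).p (k m).1).1
  have hπk : ∀ m, π m (levSeq s0 nx m) (k (m + 1)).1 = (k m).1 := fun m => congrArg Subtype.val (hk m)
  have hx2 : ∀ m, ((levSeq s0 nx m).p (k m).1).2 = x 0 := by
    intro m
    induction m with
    | zero => rfl
    | succ m ih =>
      have := (hπ m (levSeq s0 nx m) (k (m + 1)).1).1
      rw [hπk] at this
      exact this.trans ih
  have hdist : ∀ n, T.dist (x n) (x 0) = n := by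
    intro n
    cases n with
    | zero => exact T.dist_self
    | succ m =>
      have := (levSeq s0 nx m).dist (k m).1
      rw [hx2] at this
      exact this
  have hadj : ∀ n, T.Adj (x n) (x (n + 1)) := by
    intro n
    cases n with
    | zero =>
      have := hdist 1
      exact (T.dist_eq_one_iff_adj.1 this).symm
    | succ m =>
      have := (hπ m (levSeq s0 nx m) (k (m + 1)).1).2
      rw [hπk] at this
      exact this.symm
  obtain ⟨n, hn, hreg⟩ := hbar.ray x hadj fun n hne => by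
    have h1 := hdist n
    have h2 := hdist (n + 2)
    rw [← hne] at h2
    omega
  obtain ⟨m, rfl⟩ : ∃ m, n = m + 1 := ⟨n - 1, by omega⟩
  apply (k m).2
  rw [hx2 m]
  exact hreg

end Pool.Agent.Lib.MP_551055_al.LO
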