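import Pool.Agent.Lib.MP_551055_al.LO.Clo
import Pool.Agent.Lib.MP_551055_al.LO.Final
import Pool.Agent.Lib.MP_551055_al.LO.Orb
import Pool.Agent.Lib.MP_551055_al.LO.Ray
import Pool.Agent.Lib.MP_551055_al.LS.Main
import Pool.Agent.Lib.MP_551055_al.PT.Hull
import Pool.Agent.Lib.MP_551055_al.PT.MV

/-!
# Locally perfect kernels: the assembled theorems
-/

set_option autoImplicit false

namespace Pool.Agent.Lib.MP_551055_al.LO

open Pool.Agent.Lib.MP_551055_al
open Pool.Agent.Lib.MP_551055_al.LS
open Pool.Agent.Lib.MP_551055_al.PT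

universe u v

theorem loNilL : StNilL.{u, v} :=
  stNilL stFil stInd (stDev (stSES stConj (stGAInd stConj)) (stGAFree stConj) stUnip)
    stVecFree stHomFree (stGAFree stConj)

theorem loNilEL : StNilEL.{u, v} := stNilEL stElim (stOrbL loNilL stUnip)

theorem loRayEL : StRayEL.{u, v} := stRayEL loNilEL (stStepP stTreeB stSwap) stTreeB

/-- The closure theorem for groups acting on trees. -/
theorem loFinalEL : StFinalEL.{u, v} :=
  stFinalEL stTreeC (stKI stTreeB) (stTheta stTreeA (stCut stTreeA)) lsAdapt (stInit stConj stUnip)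
    loRayEL (stBassClass stBassProj) stBassMono (stBassVert stBassProj) stBassIdem stGraded

theorem loTreeL : StTreeL.{u, v} :=
  stTreeL stTreeC stHull stMV stInd stHomFree stVecFree (stPSes stPExt)

end Pool.Agent.Lib.MP_551055_al.LO
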