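import Pool.Agent.Lib.MP_551055_al.LO.Nil
import Pool.Agent.Lib.MP_551055_al.LS.Stmts3

/-!
# Statements: long segments whose stabilisers have locally perfect kernels
-/

set_option autoImplicit false

namespace Pool.Agent.Lib.MP_551055_al.LO

open Pool.Agent.Lib.MP_551055_al
open Pool.Agent.Lib.MP_551055_al.LS

universe u v

/-- The position `a` is good: the kernels over the group ring of its stabiliser are locally perfect,
or `K` contains all isomorphisms over the subgroups generated by the stabiliser and an element which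
moves `a` along `r`. -/
def PosGoodL {Γ : Type u} [Group Γ] (K : K1C (ZG Γ)) {X : Type v} [MulAction Γ X]
    (r : X → X → Prop) (a : X) : Prop :=
  LPK (MonoidAlgebra ℤ (MulAction.stabilizer Γ a)) ∨
    ∀ (γ : Γ) (j : ℕ), 1 ≤ j → itr r j a (γ • a) →
      SGood K (MulAction.stabilizer Γ a ⊔ Subgroup.zpowers γ)

/-- Module OrbL. Matrices supported on one orbit of pairs. -/
def StOrbL : Prop :=
  ∀ (Γ : Type u) [Group Γ] (K : K1C (ZG Γ)), MGood K → ∀ (X : Type v) [MulAction Γ X]
    (r : X → X → Prop), UR (Γ := Γ) r → ∀ (ι : Type) [Fintype ι] [DecidableEq ι] (p : ι → X)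
      (j : ℕ) (B : Matrix ι ι (ZG Γ)) (k : ℕ), 1 ≤ j → B ^ k = 0 → Dg r j p B →
      ∀ x z : X, OrbS p B x z → (∀ i, PosGoodL K r (p i)) →
      K.G (Matrix.toLinearMapRight' (1 + B))

/-- Module NilEL. -/
def StNilEL : Prop :=
  ∀ (Γ : Type u) [Group Γ] (K : K1C (ZG Γ)), MGood K → ∀ (X : Type v) [MulAction Γ X]
    (r : X → X → Prop), UR (Γ := Γ) r → ∀ (ι : Type) [Finite ι] (p : ι → X)
      (ν : Module.End (ZG Γ) (F Γ ι)), IsNilpotent ν → Tr r p p ν → (∀ i, PosGoodL K r (p i)) →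
      K.G ((1 : Module.End (ZG Γ) (F Γ ι)) + ν)

/-- Module RayEL. -/
def StRayEL : Prop :=
  ∀ (Γ : Type u) [Group Γ] (V : Type v) [MulAction Γ V] (T : SimpleGraph V), TreeAct Γ V T →
    ∀ (K : K1C (ZG Γ)), MGood K → ∀ (S : V → V → Prop), Bar T S →
      (∀ u v, S u v → u ≠ v → LPK (MonoidAlgebra ℤ (MulAction.stabilizer Γ (v, u))) ∨
        ∀ γ : Γ, Trl T γ u v → SGood K (MulAction.stabilizer Γ (v, u) ⊔ Subgroup.zpowers γ)) →
      NilGood K T 1

/-- The final theorem. -/
def StFinalEL : Prop :=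
  ∀ (G : Type u) [Group G] (V : Type v) [MulAction G V] (T : SimpleGraph V), TreeAct G V T →
    (∀ v : V, VN.ProjStFree (MulAction.stabilizer G v)) →
    (∀ u v, T.Adj u v → VN.ProjStFree (MulAction.stabilizer G (u, v) × Multiplicative ℤ)) →
    ∀ (S : V → V → Prop), Bar T S →
      (∀ u v, S u v → u ≠ v →
        LPK (MonoidAlgebra ℤ (MulAction.stabilizer G (v, u) × Multiplicative ℤ)) ∨
        ∀ g : G, Trl T g u v →
          VN.ProjStFree (↥(MulAction.stabilizer G (v, u) ⊔ Subgroup.zpowers g))) →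
      VN.ProjStFree G

end Pool.Agent.Lib.MP_551055_al.LO
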